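import Pool.Agent.Q276.CN.Stm
import Pool.Agent.Q276.PL.AllS

/-! Project CN: assembly of `StmtFIN`. -/

set_option autoImplicit false

open scoped Real Topology
open Finset Filter

namespace Pool.Agent.Q276.CN

/-- The form `x² - D y²` has a nonzero value of absolute value at most `H` with `1 ≤ y ≤ Y`. -/
def SmallV (D : ℤ) (Y H : ℝ) : Prop := ∃ x y : ℤ, 1 ≤ y ∧ (y : ℝ) ≤ Y ∧
  x ^ 2 ≠ D * y ^ 2 ∧ |((x ^ 2 - D * y ^ 2 : ℤ) : ℝ)| ≤ H

/-- all units of `D` are at least `exp B` -/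
def Big (D : ℕ) (B : ℝ) : Prop := ∀ T U : ℤ, 0 < T → 0 < U → T ^ 2 - D * U ^ 2 = 4 →
    B ≤ Real.log (((T : ℝ) + U * √(D : ℝ)) / 2)

theorem fin_box' (X : ℝ) : {D : ℤ | 1 ≤ D ∧ (D : ℝ) ≤ X}.Finite := by
  refine (Set.finite_Icc (1 : ℤ) ⌊X⌋).subset ?_
  rintro D ⟨h1, h2⟩
  exact ⟨h1, Int.le_floor.2 h2⟩

open Classical in
theorem bad_card (A : ℕ) (hA : 1 ≤ A) (s : ℝ) (hs : s = (4 * (A : ℝ) + 1) ^ 2) :
    ∃ M : ℝ, 0 ≤ M ∧ ∃ N0 : ℕ, 1 ≤ N0 ∧ ∀ N : ℕ, N0 ≤ N →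
      ((((Finset.range N).filter (fun D => ¬ IsSquare D ∧ ¬ Big D (A * Real.log N))).card : ℕ) : ℝ) ≤
        M * (N : ℝ) ^ (1 - 1 / (64 * s)) := by
  obtain ⟨M, hM⟩ := Pool.Agent.Q276.PL.pfin_true A hA
  have hA1 : (1 : ℝ) ≤ A := by exact_mod_cast hA
  have hs1 : 1 ≤ s := by
    rw [hs]
    nlinarith
  have hM' : ∀ X : ℝ, 1 ≤ X → ({D : ℤ | 1 ≤ D ∧ (D : ℝ) ≤ X ∧
      SmallV D (X ^ A) (X ^ (1 / (128 * (4 * (A : ℝ) + 1) ^ 2)))}.ncard : ℝ) ≤
      M * X ^ (1 - 1 / (64 * (4 * (A : ℝ) + 1) ^ 2)) := fun X hX => hM X hX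
  rw [← hs] at hM'
  obtain ⟨N0, hN0⟩ := exists_nat_ge ((4 : ℝ) ^ (128 * s))
  refine ⟨|M| + 3, by positivity, N0 + 1, by omega, fun N hN => ?_⟩
  have hN1 : (1 : ℝ) ≤ N := by
    have : 1 ≤ N := by omega
    exact_mod_cast this
  have hNpos : (0 : ℝ) < N := by linarith
  have hX4 : (4 : ℝ) ^ (128 * s) ≤ N := by
    have h1 : (N0 : ℝ) ≤ N := by
      have : N0 ≤ N := by omega
      exact_mod_cast this
    linarith
  have h4 : 4 ≤ (N : ℝ) ^ (1 / (128 * s)) := by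
    have h5 := Real.rpow_le_rpow (Real.rpow_nonneg (by norm_num) _) hX4
      (by positivity : 0 ≤ 1 / (128 * s))
    rw [← Real.rpow_mul (by norm_num)] at h5
    have h6 : 128 * s * (1 / (128 * s)) = 1 := by
      field_simp
    rwa [h6, Real.rpow_one] at h5
  have hexp : 0 ≤ 1 - 1 / (64 * s) := by
    have : 1 / (64 * s) ≤ 1 := by
      rw [div_le_one (by positivity)]
      linarith
    linarith
  have hp1 : 1 ≤ (N : ℝ) ^ (1 - 1 / (64 * s)) := Real.one_le_rpow hN1 hexp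
  -- the set
  obtain ⟨S, hS⟩ : ∃ S : Set ℤ, S = {D : ℤ | 1 ≤ D ∧ (D : ℝ) ≤ N ∧
      SmallV D ((N : ℝ) ^ A) ((N : ℝ) ^ (1 / (128 * s)))} := ⟨_, rfl⟩
  have hSfin : S.Finite := by
    rw [hS]
    exact (fin_box' N).subset fun D hD => ⟨hD.1, hD.2.1⟩
  have hsub : (((((Finset.range N).filter (fun D => ¬ IsSquare D ∧ ¬ Big D (A * Real.log N))).image
      (fun n : ℕ => (n : ℤ)) : Finset ℤ)) : Set ℤ) ⊆ S ∪ ((({1, 2, 3} : Finset ℤ)) : Set ℤ) := by
    intro z hz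
    rw [Finset.mem_coe, Finset.mem_image] at hz
    obtain ⟨D, hD, rfl⟩ := hz
    rw [Finset.mem_filter, Finset.mem_range] at hD
    obtain ⟨hDN, hsq, hbig⟩ := hD
    have hD0 : D ≠ 0 := by
      rintro rfl
      exact hsq ⟨0, rfl⟩
    by_cases hD4 : 4 ≤ D
    · left
      rw [hS]
      simp only [Big, not_forall, not_le] at hbig
      obtain ⟨T, U, hT, hU, hval, hlt⟩ := hbig
      have hD4' : (4 : ℝ) ≤ D := by exact_mod_cast hD4
      have h7 : (2 : ℝ) ≤ √(D : ℝ) := by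
        apply Real.le_sqrt_of_sq_le
        linarith
      have hT' : (0 : ℝ) < T := by exact_mod_cast hT
      have hU' : (0 : ℝ) < U := by exact_mod_cast hU
      have hpos : 0 < ((T : ℝ) + U * √(D : ℝ)) / 2 := by positivity
      have hle : ((T : ℝ) + U * √(D : ℝ)) / 2 ≤ (N : ℝ) ^ A := by
        rw [← Real.log_le_log_iff hpos (by positivity), Real.log_pow]
        exact hlt.le
      refine ⟨by omega, ?_, T, U, hU, ?_, ?_, ?_⟩
      · have : (D : ℝ) ≤ N := by exact_mod_cast hDN.le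
        exact_mod_cast this
      · nlinarith
      · intro h
        rw [h] at hval
        simp at hval
      · have h9 : |((T ^ 2 - ((D : ℕ) : ℤ) * U ^ 2 : ℤ) : ℝ)| = 4 := by
          rw [hval]
          norm_num
        rw [h9]
        exact h4
    · right
      simp only [Finset.coe_insert, Finset.coe_singleton, Set.mem_insert_iff,
        Set.mem_singleton_iff]
      omega
  have h10 := Set.ncard_le_ncard hsub (hSfin.union (Finset.finite_toSet _))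
  have h11 := h10.trans (Set.ncard_union_le _ _)
  have h12 : (((({1, 2, 3} : Finset ℤ)) : Set ℤ)).ncard ≤ 3 := by
    rw [Set.ncard_coe_finset]
    exact Finset.card_le_three
  rw [Set.ncard_coe_finset, Finset.card_image_of_injective _ Nat.cast_injective] at h11
  have h13 : ((((Finset.range N).filter (fun D => ¬ IsSquare D ∧
      ¬ Big D (A * Real.log N))).card : ℕ) : ℝ) ≤ (S.ncard : ℝ) + 3 := by
    exact_mod_cast h11.trans (Nat.add_le_add_left h12 _)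
  have h14 := hM' N hN1
  rw [← hS] at h14
  have h15 : M * (N : ℝ) ^ (1 - 1 / (64 * s)) ≤ |M| * (N : ℝ) ^ (1 - 1 / (64 * s)) :=
    mul_le_mul_of_nonneg_right (le_abs_self M) (by linarith)
  nlinarith

open Classical in
theorem fin (hH : StmtHLE) (hS : StmtSUM) (hC : StmtCNT) (hW : StmtWNN) (hM : StmtMEM) :
    StmtFIN := by
  obtain ⟨CS, hCS0, hCS⟩ := hS
  rw [StmtFIN, Metric.tendsto_atTop]
  intro η hη
  obtain ⟨A, hA⟩ := exists_nat_gt (2 * CS / η)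
  have hA0 : (0 : ℝ) < A := lt_of_le_of_lt (by positivity) hA
  have hA1 : 1 ≤ A := by
    have : 0 < A := by exact_mod_cast hA0
    exact this
  have hCA : CS / A < η / 2 := by
    rw [div_lt_iff₀ hη] at hA
    rw [div_lt_iff₀ hA0]
    linarith
  obtain ⟨s, hs⟩ : ∃ s : ℝ, s = (4 * (A : ℝ) + 1) ^ 2 := ⟨_, rfl⟩
  have hs1 : 1 ≤ s := by
    rw [hs]
    nlinarith
  obtain ⟨M, hM0, N0, hN0, hbad⟩ := bad_card A hA1 s hs
  obtain ⟨c, hc⟩ : ∃ c : ℝ, c = 1 / (128 * s) := ⟨_, rfl⟩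
  have hc0 : 0 < c := by
    rw [hc]
    positivity
  have hc2 : 1 / (64 * s) = 2 * c := by
    rw [hc]
    field_simp
    norm_num
  obtain ⟨C1, hC10, hC1⟩ := hC c hc0
  -- the second term tends to 0
  have hlim : Tendsto (fun x : ℝ => C1 * M * (Real.log x / x ^ c)) atTop (𝓝 0) := by
    have := (isLittleO_log_rpow_atTop hc0).tendsto_div_nhds_zero
    simpa using this.const_mul (C1 * M)
  have hlim2 := hlim.comp tendsto_natCast_atTop_atTop
  rw [Metric.tendsto_atTop] at hlim2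
  obtain ⟨N1, hN1⟩ := hlim2 (η / 2) (by positivity)
  refine ⟨max (max N0 N1) 3, fun N hN => ?_⟩
  have hNN0 : N0 ≤ N := (le_max_left _ _).trans ((le_max_left _ _).trans hN)
  have hNN1 : N1 ≤ N := (le_max_right _ _).trans ((le_max_left _ _).trans hN)
  have hN3 : 3 ≤ N := (le_max_right _ _).trans hN
  have hN3r : (3 : ℝ) ≤ N := by exact_mod_cast hN3
  have hNpos : (0 : ℝ) < N := by linarith
  have hlog : 0 < Real.log N := Real.log_pos (by linarith)
  have hsec := hN1 N hNN1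
  rw [Real.dist_eq, sub_zero, Function.comp_apply] at hsec
  have hsec' := (le_abs_self _).trans_lt hsec
  have hb := hbad N hNN0
  rw [hc2] at hb
  -- split
  obtain ⟨Sg, hSg⟩ : ∃ Sg : Finset ℕ, Sg = (Finset.range N).filter
      (fun D => ¬ IsSquare D ∧ Big D (A * Real.log N)) := ⟨_, rfl⟩
  obtain ⟨Sb, hSb⟩ : ∃ Sb : Finset ℕ, Sb = (Finset.range N).filter
      (fun D => ¬ IsSquare D ∧ ¬ Big D (A * Real.log N)) := ⟨_, rfl⟩
  rw [← hSb] at hb
  have hsplit : ((∑ D ∈ Finset.range N, (if IsSquare D then 0 else hD D) : ℕ) : ℝ) =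
      ∑ D ∈ Sg, (hD D : ℝ) + ∑ D ∈ Sb, (hD D : ℝ) := by
    push_cast
    rw [hSg, hSb, Finset.sum_filter, Finset.sum_filter, ← Finset.sum_add_distrib]
    refine Finset.sum_congr rfl fun D _ => ?_
    by_cases h1 : IsSquare D
    · simp [h1]
    · by_cases h2 : Big D (A * Real.log N)
      · simp [h1, h2]
      · simp [h1, h2]
  have hg : (A * Real.log N) * ∑ D ∈ Sg, (hD D : ℝ) ≤ CS * (N : ℝ) ^ (3 / 2 : ℝ) := by
    calc (A * Real.log N) * ∑ D ∈ Sg, (hD D : ℝ) = ∑ D ∈ Sg, (A * Real.log N) * (hD D : ℝ) := by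
          rw [Finset.mul_sum]
      _ ≤ ∑ D ∈ Sg, ∑ t ∈ redF D, wt D t := by
          refine Finset.sum_le_sum fun D hD' => ?_
          rw [hSg, Finset.mem_filter] at hD'
          exact (hH D hD'.2.1).2 _ (by positivity) hD'.2.2
      _ ≤ ∑ D ∈ Finset.range N, ∑ t ∈ redF D, wt D t := by
          refine Finset.sum_le_sum_of_subset_of_nonneg ?_ ?_
          · rw [hSg]
            exact Finset.filter_subset _ _
          · intro D _ _
            refine Finset.sum_nonneg fun t ht => ?_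
            have := (hM D t).1 ht
            exact hW D t this.1 this.2
      _ ≤ CS * (N : ℝ) ^ (3 / 2 : ℝ) := hCS N (by omega)
  have hbb : ∑ D ∈ Sb, (hD D : ℝ) ≤ (M * (N : ℝ) ^ (1 - 2 * c)) * (C1 * (N : ℝ) ^ (1 / 2 + c)) := by
    calc ∑ D ∈ Sb, (hD D : ℝ) ≤ ∑ D ∈ Sb, C1 * (N : ℝ) ^ (1 / 2 + c) := by
          refine Finset.sum_le_sum fun D hD' => ?_
          rw [hSb, Finset.mem_filter, Finset.mem_range] at hD'
          have hD0 : D ≠ 0 := by
            rintro rfl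
            exact hD'.2.1 ⟨0, rfl⟩
          have h1 : (hD D : ℝ) ≤ ((redF D).card : ℝ) := by exact_mod_cast (hH D hD'.2.1).1
          have h2 := hC1 D (by omega)
          have h3 : (D : ℝ) ^ (1 / 2 + c) ≤ (N : ℝ) ^ (1 / 2 + c) := by
            apply Real.rpow_le_rpow (by positivity) _ (by positivity)
            exact_mod_cast hD'.1.le
          have h4 := mul_le_mul_of_nonneg_left h3 hC10
          linarith
      _ = (Sb.card : ℝ) * (C1 * (N : ℝ) ^ (1 / 2 + c)) := by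
          rw [Finset.sum_const, nsmul_eq_mul]
      _ ≤ _ := mul_le_mul_of_nonneg_right hb (by positivity)
  have hpow : (N : ℝ) ^ (1 - 2 * c) * (N : ℝ) ^ (1 / 2 + c) = (N : ℝ) ^ (3 / 2 : ℝ) / (N : ℝ) ^ c := by
    rw [← Real.rpow_add hNpos, ← Real.rpow_sub hNpos]
    congr 1
    ring
  have hN32 : 0 < (N : ℝ) ^ (3 / 2 : ℝ) := Real.rpow_pos_of_pos hNpos _
  rw [Real.dist_eq, sub_zero, abs_of_nonneg (by positivity), hsplit, div_lt_iff₀ hN32]
  have e1 : (∑ D ∈ Sg, (hD D : ℝ)) * Real.log N ≤ CS / A * (N : ℝ) ^ (3 / 2 : ℝ) := by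
    have : (∑ D ∈ Sg, (hD D : ℝ)) * Real.log N = ((A * Real.log N) * ∑ D ∈ Sg, (hD D : ℝ)) / A := by
      field_simp
    rw [this, div_mul_eq_mul_div]
    exact div_le_div_of_nonneg_right hg hA0.le
  have e2 : (∑ D ∈ Sb, (hD D : ℝ)) * Real.log N ≤
      C1 * M * (Real.log N / (N : ℝ) ^ c) * (N : ℝ) ^ (3 / 2 : ℝ) := by
    calc (∑ D ∈ Sb, (hD D : ℝ)) * Real.log N ≤
        ((M * (N : ℝ) ^ (1 - 2 * c)) * (C1 * (N : ℝ) ^ (1 / 2 + c))) * Real.log N :=
          mul_le_mul_of_nonneg_right hbb hlog.le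
      _ = C1 * M * Real.log N * ((N : ℝ) ^ (1 - 2 * c) * (N : ℝ) ^ (1 / 2 + c)) := by ring
      _ = C1 * M * Real.log N * ((N : ℝ) ^ (3 / 2 : ℝ) / (N : ℝ) ^ c) := by rw [hpow]
      _ = _ := by ring
  have e3 : CS / A * (N : ℝ) ^ (3 / 2 : ℝ) < η / 2 * (N : ℝ) ^ (3 / 2 : ℝ) :=
    mul_lt_mul_of_pos_right hCA hN32
  have e4 : C1 * M * (Real.log N / (N : ℝ) ^ c) * (N : ℝ) ^ (3 / 2 : ℝ) <
      η / 2 * (N : ℝ) ^ (3 / 2 : ℝ) := mul_lt_mul_of_pos_right hsec' hN32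
  nlinarith

end Pool.Agent.Q276.CN
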