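import Pool.Agent.Q276.CN.Stm2

/-! Project CN: assembly of the quantitative theorem `StmtFING`. -/

set_option autoImplicit false

open scoped Real Topology
open Finset Filter

namespace Pool.Agent.Q276.CN

/-- `exp (- (log X / 3) ^ s)` beats every power of `log X`. -/
theorem exp_small3 (s k : ℝ) (hs : 0 < s) : ∃ X0 : ℕ, ∀ X : ℕ, X0 ≤ X →
    Real.log X ^ k * Real.exp (-(Real.log X / 3) ^ s) ≤ (3 : ℝ) ^ k := by
  have h1 := tendsto_rpow_mul_exp_neg_mul_atTop_nhds_zero (k / s) 1 one_pos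
  have h0 : Tendsto (fun X : ℕ => Real.log X / 3) atTop atTop :=
    (Real.tendsto_log_atTop.comp tendsto_natCast_atTop_atTop).atTop_div_const (by norm_num)
  have h2 : Tendsto (fun X : ℕ => (Real.log X / 3) ^ s) atTop atTop :=
    (tendsto_rpow_atTop hs).comp h0
  have h3 := (h1.comp h2).eventually (eventually_le_nhds (show (0 : ℝ) < 1 by norm_num))
  obtain ⟨X0, h4⟩ := eventually_atTop.1 h3
  refine ⟨max X0 1, fun X hX => ?_⟩
  have h5 := h4 X ((le_max_left _ _).trans hX)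
  have hl : 0 ≤ Real.log X := Real.log_nonneg (by exact_mod_cast (le_max_right _ _).trans hX)
  have h6 : ((Real.log X / 3) ^ s) ^ (k / s) = (Real.log X / 3) ^ k := by
    rw [← Real.rpow_mul (by positivity)]
    congr 1
    field_simp
  simp only [Function.comp_apply] at h5
  rw [h6, neg_one_mul] at h5
  have h7 : Real.log X ^ k = (Real.log X / 3) ^ k * (3 : ℝ) ^ k := by
    rw [← Real.mul_rpow (by positivity) (by norm_num)]
    congr 1
    field_simp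
  rw [h7]
  have h8 : (0 : ℝ) ≤ (3 : ℝ) ^ k := by positivity
  nlinarith [mul_le_mul_of_nonneg_right h5 h8]

open Classical in
/-- the sum of the class numbers -/
noncomputable def SS (N : ℕ) : ℕ := ∑ D ∈ Finset.range N, (if IsSquare D then 0 else hD D)

theorem SS_mono : Monotone SS := by
  intro a b h
  unfold SS
  apply Finset.sum_le_sum_of_subset
  exact Finset.range_mono h

open Classical in
theorem fing0 (hH : StmtHLE) (hS : StmtSUM) (hR : StmtRSQ) (hB : StmtBADG) (hW : StmtWNN)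
    (hM : StmtMEM) (δ : ℝ) (hδ : 0 < δ) (hδ2 : δ < 1 / 2) : ∃ (C : ℝ) (N1 : ℕ), 0 ≤ C ∧ 3 ≤ N1 ∧
      ∀ N : ℕ, N1 ≤ N → (SS N : ℝ) ≤ C * ((N : ℝ) ^ (3 / 2 : ℝ) / Real.log N ^ (3 / 2 - δ)) := by
  obtain ⟨CS, hCS0, hCS⟩ := hS
  obtain ⟨CR, k, hCR0, hCR⟩ := hR
  obtain ⟨M, N0, hM0, hbad⟩ := hB δ hδ hδ2
  obtain ⟨a, ha⟩ : ∃ a : ℝ, a = 3 / 2 - δ := ⟨_, rfl⟩
  have ha0 : 0 < a := by
    rw [ha]
    linarith
  obtain ⟨N2, hN2⟩ := exp_small3 (δ / 16) (k + 2 * a) (by positivity)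
  obtain ⟨E, hE⟩ : ∃ E : ℝ, E = (3 : ℝ) ^ ((k : ℝ) + 2 * a) := ⟨_, rfl⟩
  have hE0 : 0 ≤ E := by
    rw [hE]
    positivity
  refine ⟨CS + √(M * CR * E), max (max N0 N2) 3, by positivity, le_max_right _ _,
    fun N hN => ?_⟩
  have hNN0 : N0 ≤ N := (le_max_left _ _).trans ((le_max_left _ _).trans hN)
  have hNN2 : N2 ≤ N := (le_max_right _ _).trans ((le_max_left _ _).trans hN)
  have hN3 : 3 ≤ N := (le_max_right _ _).trans hN
  have hN3r : (3 : ℝ) ≤ N := by exact_mod_cast hN3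
  have hNpos : (0 : ℝ) < N := by linarith
  have hlog : 0 < Real.log N := Real.log_pos (by linarith)
  have hb := hbad N hNN0
  have hsm := hN2 N hNN2
  rw [← hE] at hsm
  have hq := hCR N hN3
  rw [← ha] at hb ⊢
  obtain ⟨L, hL⟩ : ∃ L : ℝ, L = Real.log N ^ a := ⟨_, rfl⟩
  have hL0 : 0 < L := by
    rw [hL]
    exact Real.rpow_pos_of_pos hlog _
  rw [← hL] at hb ⊢
  obtain ⟨W, hWd⟩ : ∃ W : ℝ, W = Real.exp (-(Real.log N / 3) ^ (δ / 16)) := ⟨_, rfl⟩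
  rw [← hWd] at hb hsm
  have hW0 : 0 < W := by
    rw [hWd]
    exact Real.exp_pos _
  -- split
  obtain ⟨Sg, hSg⟩ : ∃ Sg : Finset ℕ, Sg = (Finset.range N).filter
      (fun D => ¬ IsSquare D ∧ BigU D L) := ⟨_, rfl⟩
  obtain ⟨Sb, hSb⟩ : ∃ Sb : Finset ℕ, Sb = (Finset.range N).filter
      (fun D => ¬ IsSquare D ∧ ¬ BigU D L) := ⟨_, rfl⟩
  rw [← hSb] at hb
  have hsplit : (SS N : ℝ) = ∑ D ∈ Sg, (hD D : ℝ) + ∑ D ∈ Sb, (hD D : ℝ) := by
    unfold SS
    push_cast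
    rw [hSg, hSb, Finset.sum_filter, Finset.sum_filter, ← Finset.sum_add_distrib]
    refine Finset.sum_congr rfl fun D _ => ?_
    by_cases h1 : IsSquare D
    · simp [h1]
    · by_cases h2 : BigU D L
      · simp [h1, h2]
      · simp [h1, h2]
  have hg : L * ∑ D ∈ Sg, (hD D : ℝ) ≤ CS * (N : ℝ) ^ (3 / 2 : ℝ) := by
    calc L * ∑ D ∈ Sg, (hD D : ℝ) = ∑ D ∈ Sg, L * (hD D : ℝ) := by
          rw [Finset.mul_sum]
      _ ≤ ∑ D ∈ Sg, ∑ t ∈ redF D, wt D t := by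
          refine Finset.sum_le_sum fun D hD' => ?_
          rw [hSg, Finset.mem_filter] at hD'
          exact (hH D hD'.2.1).2 _ hL0.le hD'.2.2
      _ ≤ ∑ D ∈ Finset.range N, ∑ t ∈ redF D, wt D t := by
          refine Finset.sum_le_sum_of_subset_of_nonneg ?_ ?_
          · rw [hSg]
            exact Finset.filter_subset _ _
          · intro D _ _
            refine Finset.sum_nonneg fun t ht => ?_
            have := (hM D t).1 ht
            exact hW D t this.1 this.2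
      _ ≤ CS * (N : ℝ) ^ (3 / 2 : ℝ) := hCS N (by omega)
  have hN32 : (N : ℝ) ^ (3 / 2 : ℝ) * (N : ℝ) ^ (3 / 2 : ℝ) = (N : ℝ) ^ 3 := by
    rw [← Real.rpow_add hNpos]
    norm_num
  have hbb : (∑ D ∈ Sb, (hD D : ℝ)) ^ 2 ≤ (M * N * W) * (CR * (N : ℝ) ^ 2 * Real.log N ^ k) := by
    calc (∑ D ∈ Sb, (hD D : ℝ)) ^ 2 ≤ (∑ D ∈ Sb, ((redF D).card : ℝ)) ^ 2 := by
          apply pow_le_pow_left₀ (Finset.sum_nonneg fun _ _ => Nat.cast_nonneg _)
          refine Finset.sum_le_sum fun D hD' => ?_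
          rw [hSb, Finset.mem_filter] at hD'
          exact_mod_cast (hH D hD'.2.1).1
      _ ≤ (Sb.card : ℝ) * ∑ D ∈ Sb, ((redF D).card : ℝ) ^ 2 := sq_sum_le_card_mul_sum_sq
      _ ≤ (M * N * W) * (CR * (N : ℝ) ^ 2 * Real.log N ^ k) := by
          apply mul_le_mul hb _ (Finset.sum_nonneg fun _ _ => by positivity) (by positivity)
          refine le_trans (Finset.sum_le_sum_of_subset_of_nonneg ?_ fun _ _ _ => by positivity) hq
          rw [hSb]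
          exact Finset.filter_subset _ _
  have hLL : L ^ 2 * Real.log N ^ k = Real.log N ^ ((k : ℝ) + 2 * a) := by
    rw [hL, Real.rpow_add hlog, Real.rpow_natCast, ← Real.rpow_natCast (Real.log N ^ a) 2,
      ← Real.rpow_mul hlog.le]
    push_cast
    rw [mul_comm a 2]
    ring
  have hb2 : (L * ∑ D ∈ Sb, (hD D : ℝ)) ^ 2 ≤ (√(M * CR * E) * (N : ℝ) ^ (3 / 2 : ℝ)) ^ 2 := by
    have e0 : 0 ≤ M * CR * E := by positivity
    calc (L * ∑ D ∈ Sb, (hD D : ℝ)) ^ 2 = L ^ 2 * (∑ D ∈ Sb, (hD D : ℝ)) ^ 2 := by ring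
      _ ≤ L ^ 2 * ((M * N * W) * (CR * (N : ℝ) ^ 2 * Real.log N ^ k)) :=
          mul_le_mul_of_nonneg_left hbb (by positivity)
      _ = M * CR * (N : ℝ) ^ 3 * ((L ^ 2 * Real.log N ^ k) * W) := by ring
      _ = M * CR * (N : ℝ) ^ 3 * (Real.log N ^ ((k : ℝ) + 2 * a) * W) := by rw [hLL]
      _ ≤ M * CR * (N : ℝ) ^ 3 * E := mul_le_mul_of_nonneg_left hsm (by positivity)
      _ = (M * CR * E) * ((N : ℝ) ^ (3 / 2 : ℝ) * (N : ℝ) ^ (3 / 2 : ℝ)) := by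
          rw [hN32]
          ring
      _ = (√(M * CR * E) * (N : ℝ) ^ (3 / 2 : ℝ)) ^ 2 := by
          rw [mul_pow, Real.sq_sqrt e0]
          ring
  have hb3 := (abs_le_of_sq_le_sq' hb2 (by positivity)).2
  have hfin : L * (SS N : ℝ) ≤ (CS + √(M * CR * E)) * (N : ℝ) ^ (3 / 2 : ℝ) := by
    rw [hsplit, mul_add]
    linarith
  rw [← mul_div_assoc, le_div_iff₀ hL0, mul_comm (SS N : ℝ) L]
  exact hfin

theorem low (δ : ℝ) (hδ : 0 < δ) (N : ℕ) (hN : 3 ≤ N) :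
    1 ≤ (N : ℝ) ^ (3 / 2 : ℝ) / Real.log N ^ (3 / 2 - δ) := by
  have hN3r : (3 : ℝ) ≤ N := by exact_mod_cast hN
  have hNpos : (0 : ℝ) < N := by linarith
  have hlog1 : 1 ≤ Real.log N := by
    rw [Real.le_log_iff_exp_le hNpos]
    linarith [Real.exp_one_lt_d9]
  have hlogN : Real.log N ≤ N := (Real.log_le_sub_one_of_pos hNpos).trans (by linarith)
  rw [le_div_iff₀ (Real.rpow_pos_of_pos (by linarith) _), one_mul]
  calc Real.log N ^ (3 / 2 - δ) ≤ Real.log N ^ (3 / 2 : ℝ) :=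
        Real.rpow_le_rpow_of_exponent_le hlog1 (by linarith)
    _ ≤ (N : ℝ) ^ (3 / 2 : ℝ) := Real.rpow_le_rpow (by linarith) hlogN (by norm_num)

theorem fing (hH : StmtHLE) (hS : StmtSUM) (hR : StmtRSQ) (hB : StmtBADG) (hW : StmtWNN)
    (hM : StmtMEM) : StmtFING := by
  intro δ hδ
  obtain ⟨ε, hε, hε2, hεδ⟩ : ∃ ε : ℝ, 0 < ε ∧ ε < 1 / 2 ∧ ε ≤ δ :=
    ⟨min δ (1 / 4), by positivity, by
      have := min_le_right δ (1 / 4 : ℝ)
      linarith, min_le_left _ _⟩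
  obtain ⟨C, N1, hC0, hN13, h1⟩ := fing0 hH hS hR hB hW hM ε hε hε2
  refine ⟨C + SS N1, fun N hN => ?_⟩
  have hlow := low δ hδ N hN
  have hN3r : (3 : ℝ) ≤ N := by exact_mod_cast hN
  have hNpos : (0 : ℝ) < N := by linarith
  have hlog1 : 1 ≤ Real.log N := by
    rw [Real.le_log_iff_exp_le hNpos]
    linarith [Real.exp_one_lt_d9]
  have hmono : (N : ℝ) ^ (3 / 2 : ℝ) / Real.log N ^ (3 / 2 - ε) ≤
      (N : ℝ) ^ (3 / 2 : ℝ) / Real.log N ^ (3 / 2 - δ) := by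
    apply div_le_div_of_nonneg_left (by positivity) (Real.rpow_pos_of_pos (by linarith) _)
    exact Real.rpow_le_rpow_of_exponent_le hlog1 (by linarith)
  have hSS0 : (0 : ℝ) ≤ (SS N1 : ℝ) := Nat.cast_nonneg _
  change (SS N : ℝ) ≤ _
  by_cases h : N1 ≤ N
  · have h2 := h1 N h
    have h3 := mul_le_mul_of_nonneg_left hmono hC0
    nlinarith
  · have h2 : (SS N : ℝ) ≤ (SS N1 : ℝ) := by exact_mod_cast SS_mono (not_le.1 h).le
    nlinarith

end Pool.Agent.Q276.CN
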