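import Mathlib

/-!
# Project CN: the sum of the class numbers of indefinite binary quadratic forms (MP_401270_nt)

Goal: `S(N) = ∑_{D < N, D not a square} h_D = o(N^(3/2) / log N)`, where `h_D` is the number of
`SL₂(ℤ)`-classes of primitive integer forms of discriminant `D`.  Ingredients: for every fixed `A` all but
`O(N^(1-c))` of the `D ≤ N` have no unit `(T + U √D)/2 ≤ N^A` (MP_070445_nt.SmallValues, proved); reduced forms.
-/

set_option autoImplicit false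

open scoped Real Topology
open Finset Filter

namespace Pool.Agent.Q276.CN

/-- `SL₂(ℤ)`-equivalence of the forms `a x² + b x y + c y²`, written `(a, b, c)`. -/
def Eqv (u v : ℤ × ℤ × ℤ) : Prop := ∃ p q r s : ℤ, p * s - q * r = 1 ∧
  v.1 = u.1 * p ^ 2 + u.2.1 * p * r + u.2.2 * r ^ 2 ∧
  v.2.1 = 2 * u.1 * p * q + u.2.1 * (p * s + q * r) + 2 * u.2.2 * r * s ∧
  v.2.2 = u.1 * q ^ 2 + u.2.1 * q * s + u.2.2 * s ^ 2

/-- Primitive forms of discriminant `D`. -/
def PF (D : ℕ) (t : ℤ × ℤ × ℤ) : Prop :=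
  t.2.1 ^ 2 - 4 * t.1 * t.2.2 = (D : ℤ) ∧ Int.gcd (Int.gcd t.1 t.2.1 : ℤ) t.2.2 = 1

/-- Reduced indefinite forms: `b > 0`, `a c < 0`, `|a + c| < b` (equivalently
`√D - b < 2|a| < √D + b`, equivalently `|a| + |c| < √D`, `b > 0`, `a c < 0`). -/
def Rd (t : ℤ × ℤ × ℤ) : Prop := 0 < t.2.1 ∧ t.1 * t.2.2 < 0 ∧ |t.1 + t.2.2| < t.2.1

open Classical in
/-- The finite set of the reduced primitive forms of discriminant `D` (the box is no restriction:
`b² + 4 |a c| = D`). -/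
noncomputable def redF (D : ℕ) : Finset (ℤ × ℤ × ℤ) :=
  ((Finset.Icc (-(D : ℤ)) D) ×ˢ (Finset.Icc (-(D : ℤ)) D) ×ˢ (Finset.Icc (-(D : ℤ)) D)).filter
    (fun t => PF D t ∧ Rd t)

/-- The weight `log ((b + √D) / (2 |c|))` of a reduced form. -/
noncomputable def wt (D : ℕ) (t : ℤ × ℤ × ℤ) : ℝ :=
  Real.log (((t.2.1 : ℝ) + √(D : ℝ)) / (2 * |(t.2.2 : ℝ)|))

/-- The number of classes, in exactly the form of the frozen statement. -/
noncomputable def hD (D : ℕ) : ℕ := Nat.card (Quot (fun (u v : {t : ℤ × ℤ × ℤ // PF D t}) => Eqv u.1 v.1))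

/-- MEM: membership in `redF` without the box. Proof: `a c < 0`, so `D = b² + 4 |a| |c|` with
`|a|, |c| ≥ 1`, hence `b ≤ b² ≤ D` and `|a|, |c| ≤ D`. -/
def StmtMEM : Prop := ∀ (D : ℕ) (t : ℤ × ℤ × ℤ), t ∈ redF D ↔ PF D t ∧ Rd t

/-- EX: every class contains a reduced form. Proof: `Eqv` is reflexive and transitive and preserves the
discriminant and primitivity (the gcd of the three coefficients divides those of the equivalent form, both ways).
As `D` is not a square, `a ≠ 0` and `c ≠ 0` for all forms of discriminant `D`. Choose in the class a form with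
`|a|` minimal. The translation `p = s = 1, r = 0, q = k` gives `(a, b + 2 a k, *)`; choose `k` with
`|b| ≤ |a|`; the form `(c, -b, a)` is equivalent (`p = 0, q = -1, r = 1, s = 0`), so `|c| ≥ |a|`. If
`a c > 0`, `D = b² - 4 a c ≤ a² - 4 a² < 0`; so `a c < 0` and `D = b² + 4 |a c| ≥ 4 a²`, thus `2 |a| < √D`
(not equal, `D` is not a square). Now choose the translate with `√D - 2 |a| < b < √D` (half-open interval of length `2 |a|`
for integers, e.g. `s = ⌊√D⌋ = Nat.sqrt D`, `s - 2|a| < b ≤ s`): then `b > 0` (as `s ≥ 2|a|`),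
`b ≤ s < √D`, so `a c < 0`; and `|a| + |c| < √D`: from `s + 1 - 2|a| ≤ b ≤ s` we get
`4 |a| |c| = D - b² = (√D - b)(√D + b) ` with `√D - b < 2 |a| < √D + b` (`2|a| < √D`), hence `2|c| = (√D - b)(√D + b)/(2|a|)` lies
strictly between `√D - b` and `√D + b` too; then `||a| - |c|| < b` since `|a| - |c|` is
(x - y)/2 with x, y in the open interval of length 2b. -/
def StmtEX : Prop := ∀ (D : ℕ), ¬ IsSquare D → ∀ t : ℤ × ℤ × ℤ, PF D t →
  ∃ t' : ℤ × ℤ × ℤ, Eqv t t' ∧ PF D t' ∧ Rd t'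

open Classical in
/-- CYC: the cycle of a reduced form gives a unit of norm 1. Proof: `ρ(a, b, c) = (c, b', c')` with
`m = ⌊(b + √D)/(2 |c|)⌋ ≥ 1`, `n = sign(c) m`, `b' = -b + 2 c n`, `c' = a - b n + c n²` (matrix `(0, -1; 1, n)`) is again
reduced; `ρ` is injective on the finite set of the reduced forms, so some `ρ^k` fixes `t`
(first such `k`: the forms `t, ρ t, ..., ρ^(k-1) t` are distinct). With the root
`r = (-b + √D)/(2 a)` one has `M (r', 1) = λ (r, 1)` with `λ = r' + n = -1/r = (b + √D)/(2 c)`, of absolute value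
`exp (wt D t)`. The product `M` of the `k` matrices fixes `t` and has the eigenvalue `∏ λ`, so
`M = (x, y; z, w)` with `z r² + (w - x) r - y = 0`, so `(z, w - x, -y) = U (a, b, c)` with an integer `U` (`t` is primitive, `D`
not a square), `T = x + w`, `T² - D U² = 4`, `|λ| = (|T| + |U| √D)/2` as `|λ| > 1`, and
`U ≠ 0`. -/
def StmtCYC : Prop := ∀ (D : ℕ), ¬ IsSquare D → ∀ t : ℤ × ℤ × ℤ, PF D t → Rd t →
  ∃ T U : ℤ, 0 < T ∧ 0 < U ∧ T ^ 2 - D * U ^ 2 = 4 ∧
    Real.log (((T : ℝ) + U * √(D : ℝ)) / 2) ≤ ∑ t' ∈ (redF D).filter (fun t' => Eqv t t'), wt D t'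

/-- WNN: the weights are nonnegative. Proof: `|a| + |c| < √D` (from `|a + c| < b`, `a c < 0`:
`(|a| + |c|)² = (|a| - |c|)² + 4 |a c| < b² + 4 |a c| = D`), and `(b + √D)(√D - b) = 4 |a| |c|`. `2|c| < √D + b`: otherwise
`2|a| ≤ √D - b` and `|c| - |a| ≥ b`. -/
def StmtWNN : Prop := ∀ (D : ℕ) (t : ℤ × ℤ × ℤ), PF D t → Rd t → 0 ≤ wt D t

/-- SUM: the sum of all the weights. Proof: for `t = (a, b, c)` in `redF D`, `D < N`, one has
`1 ≤ b < √N`, `1 ≤ |a|, |c| < √N` (`|a| + |c| < √D`, see WNN), `b < √D < √N`, so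
`wt D t ≤ log (√N / |c|) ≤ 2 √(√N / |c|)` (`log x ≤ 2 √x`), and `(a, b, c)` determines `D`. So the double sum is at most
`(2 √N) (√N) · 2 ∑_{1 ≤ c ≤ √N} 2 √(√N / c) ≤ 4 N · 4 √N` (`∑_{c ≤ y} 1/√c ≤ 2 √y`). (Work with `s = Nat.sqrt N`,
box `Icc (-s) s ×ˢ Icc 1 s ×ˢ Icc (-s) s`.) -/
def StmtSUM : Prop := ∃ C : ℝ, 0 ≤ C ∧ ∀ N : ℕ, 1 ≤ N →
  ∑ D ∈ Finset.range N, ∑ t ∈ redF D, wt D t ≤ C * (N : ℝ) ^ (3 / 2 : ℝ)

/-- CNT: the number of the reduced forms. Proof: `(a, b, c) ↦ (b, a)` is injective on `redF D`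
(`c = (b² - D)/(4 a)`); `1 ≤ b ≤ √D`, and `|a|` divides `(D - b²)/4 ≠ 0`, a positive integer `≤ D`: at most
`2 d((D - b²)/4) ≤ 2 C₁ D^ε` values of `a` for each `b` (divisor bound: `Pool.Agent.W75.PL.DIV.t`, statement
`Pool.Agent.W223.PL.StmtDIV`). -/
def StmtCNT : Prop := ∀ ε : ℝ, 0 < ε → ∃ C : ℝ, 0 ≤ C ∧ ∀ D : ℕ, 1 ≤ D →
  ((redF D).card : ℝ) ≤ C * (D : ℝ) ^ (1 / 2 + ε)

/-- HLE: class number and reduced forms. (1) the map from the reduced forms to the classes is surjective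
(EX). (2) if every unit `(T + U √D)/2`, `T, U > 0`, `T² - D U² = 4`, has a logarithm at least `B ≥ 0`, then each class (choose a reduced
representative for each class; `Eqv` is an equivalence relation, so the sets of reduced forms of different classes are
disjoint) has weight sum at least `B`. -/
def StmtHLE : Prop := ∀ (D : ℕ), ¬ IsSquare D → hD D ≤ (redF D).card ∧
  ∀ B : ℝ, 0 ≤ B → (∀ T U : ℤ, 0 < T → 0 < U → T ^ 2 - D * U ^ 2 = 4 →
    B ≤ Real.log (((T : ℝ) + U * √(D : ℝ)) / 2)) → B * (hD D : ℝ) ≤ ∑ t ∈ redF D, wt D t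

open Classical in
/-- FIN: the theorem. -/
def StmtFIN : Prop := Tendsto (fun N : ℕ =>
  ((∑ D ∈ Finset.range N, (if IsSquare D then 0 else hD D) : ℕ) : ℝ) * Real.log N / (N : ℝ) ^ (3 / 2 : ℝ))
  atTop (𝓝 0)

end Pool.Agent.Q276.CN
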