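import Pool.Agent.Q276.CN.Stm
import Pool.Agent.Q276.PL.Stm2

/-!
# Project CN, quantitative form: `S(N) ≤ C N^(3/2) / (log N)^(3/2 - δ)` for ALL discriminants
-/

set_option autoImplicit false

open scoped Real Topology
open Finset Filter

namespace Pool.Agent.Q276.CN

/-- Every unit `(T + U √D)/2`, `T, U > 0`, `T² - D U² = 4`, has logarithm at least `B`. -/
def BigU (D : ℕ) (B : ℝ) : Prop := ∀ T U : ℤ, 0 < T → 0 < U → T ^ 2 - D * U ^ 2 = 4 →
    B ≤ Real.log (((T : ℝ) + U * √(D : ℝ)) / 2)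

open Classical in
/-- BADG: few discriminants have a small unit (all non-squares `D`, not only squarefree ones).
Proof from `Pool.Agent.Q276.PL.rgb_true : StmtRGB` (module Pool.Agent.Q276.PL.All; squarefree `d`, fundamental discriminant
`dsc d`). Write `D = f² d`, `d > 1` squarefree (`Nat.sq_mul_squarefree`). If `T² - D U² = 4` then `T² - d (f U)² = 4`; if
`d % 4 = 1`, `dsc d = d` has the unit with `t = T, u = f U`; if `d % 4 = 2, 3` then `f U` is even (mod 4) and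
`dsc d = 4 d` has the unit `t = T, u = f U / 2`; the value `(t + u √(dsc d))/2` is `(T + U √D)/2` in both cases. So `¬ BigU D L`,
`L = (log N)^(3/2 - δ)`, gives `SmallUnit (dsc d) (exp L)`. Count by `f`, injectively `D ↦ (f, d)`, `d ≤ X := N / f²` (natural division). For
`f² ≤ √N`: `log X ≥ (log N)/2 - small`, hence (use e.g. `X ≥ √N / 2`, `N` large) `L ≤ (log X)^(3/2 - δ/2)` and RGB for `δ/2`
gives at most `M X exp(-(log X)^(δ/16))`; to be safe the exponent in the statement is `(log N / 3)^(δ/16)`. Sum over `f`: `∑ 1/f² ≤ 2`. For `f² > √N`: at most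
`∑_{f > N^(1/4)} N/f² ≤ 2 N^(3/4)`, which is at most `N exp(-(log N / 3)^(δ/16))` for large `N`. -/
def StmtBADG : Prop := ∀ δ : ℝ, 0 < δ → δ < 1 / 2 → ∃ (M : ℝ) (N0 : ℕ), 0 ≤ M ∧ ∀ N : ℕ, N0 ≤ N →
  ((((Finset.range N).filter (fun D => ¬ IsSquare D ∧
    ¬ BigU D (Real.log N ^ (3 / 2 - δ)))).card : ℕ) : ℝ) ≤
    M * N * Real.exp (-(Real.log N / 3) ^ (δ / 16))

/-- RSQ: second moment of the number of reduced forms. Proof: `(a, b, c) ↦ (b, a)` is injective on `redF D`, `1 ≤ b`, `b² < D < N`, and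
`|a|` divides `(D - b²)/4 ≥ 1` (an integer); so `|redF D| ≤ ∑_{b ≤ s, b² < D, 4 | D - b²} 2 d((D - b²)/4)`, `s = Nat.sqrt N`; Cauchy-Schwarz:
`|redF D|² ≤ 4 s ∑_b d((D - b²)/4)²`; sum over `D < N` for fixed `b` (`n = (D - b²)/4 ≤ N` determines `D`):
`≤ 4 s · s · ∑_{n ≤ N} d(n)²` and `∑_{n ≤ N} d(n)² ≤ C N (log N)^k` (search the library for the second moment of the divisor
function, or `d(n)² ≤ ∑_{e | n} d(e)²`...: `d(n)² ≤ d_4(n)`, and `∑_{n ≤ N} d_4(n) ≤ N (1 + log N)³` by `∑ 1/a` three times). -/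
def StmtRSQ : Prop := ∃ (C : ℝ) (k : ℕ), 0 ≤ C ∧ ∀ N : ℕ, 3 ≤ N →
  ∑ D ∈ Finset.range N, ((redF D).card : ℝ) ^ 2 ≤ C * (N : ℝ) ^ 2 * Real.log N ^ k

open Classical in
/-- FING: the theorem. Proof: as `Pool/Agent/Q276/CN/Fin.lean`; the bad `D` by Cauchy-Schwarz from BADG and RSQ. -/
def StmtFING : Prop := ∀ δ : ℝ, 0 < δ → ∃ C : ℝ, ∀ N : ℕ, 3 ≤ N →
  ((∑ D ∈ Finset.range N, (if IsSquare D then 0 else hD D) : ℕ) : ℝ) ≤
    C * ((N : ℝ) ^ (3 / 2 : ℝ) / Real.log N ^ (3 / 2 - δ))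

end Pool.Agent.Q276.CN
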