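import Pool.Agent.Q276.PL.Stm2

/-! Project CN, second part: the mean value of the class numbers of the fields `ℚ(√d)`, `d` squarefree. -/

set_option autoImplicit false

namespace Pool.Agent.Q276.CN

open Finset NumberField

/-- `h d` is the class number of the field of the square root of `d`, for squarefree `d > 1`. -/
def IsClS (h : ℕ → ℕ) : Prop := ∀ d : ℕ, 1 < d → Squarefree d → ∃ (K : Type) (_ : Field K) (_ : NumberField K),
  Module.finrank ℚ K = 2 ∧ (∃ x : K, x ^ 2 = (d : K)) ∧ h d = classNumber K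

/-- MSF: `∑_{d ≤ N squarefree} h(d) ≤ C N^(3/2) / (log N)^(3/2 - δ)`. Proof: copy of
`Pool/Agent/Q276/PL/Mean.lean` and `Mean2.lean` (theorem `Pool.Agent.Q276.PL.Mean.mean`, primes `p ≤ N` in place of the squarefree
`d ≤ N`), with the second moment `StmtLAV` (all squarefree `d`; `Pool.Agent.Q79.PL.lav`) in place of `StmtLAP` and one factor
`log N` less in the denominator throughout. -/
def StmtMSF : Prop := ∀ δ : ℝ, 0 < δ → ∃ C : ℝ, ∀ h : ℕ → ℕ, IsClS h → ∀ N : ℕ, 3 ≤ N →
  ∑ d ∈ (Finset.Icc 2 N).filter Squarefree, (h d : ℝ) ≤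
    C * ((N : ℝ) ^ (3 / 2 : ℝ) / Real.log N ^ (3 / 2 - δ))

end Pool.Agent.Q276.CN
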